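import Pool.Agent.MP_3ee8cb_gt.D3.Defs
import Pool.Agent.MP_3ee8cb_gt.D3MO.NoLog
import Pool.Agent.MP_3ee8cb_gt.D3MO.Sph

/-! A continuous symmetric tensor field on the two-sphere has an umbilic point. -/

namespace Pool.Agent.MP_3ee8cb_gt.D3HB

open D3 (V)
open scoped RealInnerProductSpace

noncomputable section

/-- Inverse stereographic projection; `s = 1` or `s = -1`. -/
def pt (s : ℝ) (w : ℂ) : V := (1 + w.re ^ 2 + w.im ^ 2)⁻¹ •
  !₂[2 * w.re, s * (2 * w.im), s * (w.re ^ 2 + w.im ^ 2 - 1)]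

/-- The first vector of a conformal frame. -/
def e1 (s : ℝ) (w : ℂ) : V :=
  !₂[1 - w.re ^ 2 + w.im ^ 2, s * (-2 * w.re * w.im), s * (2 * w.re)]

/-- The second vector of the frame. -/
def e2 (s : ℝ) (w : ℂ) : V :=
  !₂[-2 * w.re * w.im, s * (1 + w.re ^ 2 - w.im ^ 2), s * (2 * w.im)]

theorem inn (a b : V) : ⟪a, b⟫ = a 0 * b 0 + a 1 * b 1 + a 2 * b 2 := by
  simp only [PiLp.inner_apply, Fin.sum_univ_three, RCLike.inner_apply, conj_trivial]
  ring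

theorem den (w : ℂ) : 1 + w.re ^ 2 + w.im ^ 2 ≠ 0 := by positivity

theorem pt_norm {s : ℝ} (hs : s ^ 2 = 1) (w : ℂ) : ‖pt s w‖ = 1 := by
  have h : ⟪pt s w, pt s w⟫ = 1 := by
    rw [inn]
    simp only [pt, PiLp.smul_apply, smul_eq_mul, Matrix.cons_val_zero, Matrix.cons_val_one,
      Matrix.cons_val]
    have := den w
    field_simp
    linear_combination (4 * w.im ^ 2 + (w.re ^ 2 + w.im ^ 2 - 1) ^ 2) * hs
  rw [real_inner_self_eq_norm_sq] at h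
  exact (pow_eq_one_iff_of_nonneg (norm_nonneg _) two_ne_zero).1 h

theorem pt_e1 {s : ℝ} (hs : s ^ 2 = 1) (w : ℂ) : ⟪pt s w, e1 s w⟫ = 0 := by
  rw [inn]
  simp only [pt, e1, PiLp.smul_apply, smul_eq_mul, Matrix.cons_val_zero, Matrix.cons_val_one,
    Matrix.cons_val]
  have := den w
  field_simp
  linear_combination (-4 * w.re * w.im ^ 2 + 2 * w.re * (w.re ^ 2 + w.im ^ 2 - 1)) * hs

theorem pt_e2 {s : ℝ} (hs : s ^ 2 = 1) (w : ℂ) : ⟪pt s w, e2 s w⟫ = 0 := by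
  rw [inn]
  simp only [pt, e2, PiLp.smul_apply, smul_eq_mul, Matrix.cons_val_zero, Matrix.cons_val_one,
    Matrix.cons_val]
  have := den w
  field_simp
  linear_combination (2 * w.im * (1 + w.re ^ 2 - w.im ^ 2) +
    2 * w.im * (w.re ^ 2 + w.im ^ 2 - 1)) * hs

theorem span {s : ℝ} (hs : s ^ 2 = 1) (w : ℂ) (a : V) (ha : ⟪pt s w, a⟫ = 0) :
    a = (⟪e1 s w, a⟫ / (1 + w.re ^ 2 + w.im ^ 2) ^ 2) • e1 s w +
      (⟪e2 s w, a⟫ / (1 + w.re ^ 2 + w.im ^ 2) ^ 2) • e2 s w := by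
  rw [inn] at ha
  rw [inn, inn]
  simp only [pt, PiLp.smul_apply, smul_eq_mul, Matrix.cons_val_zero, Matrix.cons_val_one,
    Matrix.cons_val] at ha
  have := den w
  field_simp at ha
  rcases mul_self_eq_one_iff.1 ((sq s).symm.trans hs) with rfl | rfl <;>
  · ext i
    fin_cases i <;>
    simp only [e1, e2, PiLp.add_apply, PiLp.smul_apply, smul_eq_mul, Matrix.cons_val_zero,
      Matrix.cons_val_one, Matrix.cons_val, Fin.zero_eta, Fin.mk_one, Fin.reduceFinMk] <;>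
    field_simp
    · linear_combination (2 * w.re) * ha
    · first
        | linear_combination (2 * w.im) * ha
        | linear_combination (-2 * w.im) * ha
    · first
        | linear_combination (w.re ^ 2 + w.im ^ 2 - 1) * ha
        | linear_combination (-(w.re ^ 2 + w.im ^ 2 - 1)) * ha

theorem e11 {s : ℝ} (hs : s ^ 2 = 1) (w : ℂ) :
    ⟪e1 s w, e1 s w⟫ = (1 + w.re ^ 2 + w.im ^ 2) ^ 2 ∧
    ⟪e2 s w, e2 s w⟫ = (1 + w.re ^ 2 + w.im ^ 2) ^ 2 ∧ ⟪e1 s w, e2 s w⟫ = 0 := by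
  simp only [inn, e1, e2, Matrix.cons_val_zero, Matrix.cons_val_one, Matrix.cons_val]
  refine ⟨?_, ?_, ?_⟩
  · linear_combination (4 * w.re ^ 2 * w.im ^ 2 + 4 * w.re ^ 2) * hs
  · linear_combination ((1 + w.re ^ 2 - w.im ^ 2) ^ 2 + 4 * w.im ^ 2) * hs
  · linear_combination (-2 * w.re * w.im * (1 + w.re ^ 2 - w.im ^ 2) + 4 * w.re * w.im) * hs

theorem c_pt (s : ℝ) : Continuous (pt s) := by
  refine Continuous.smul (Continuous.inv₀ (by fun_prop) den) ?_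
  refine (PiLp.continuous_toLp 2 _).comp (continuous_pi fun i => ?_)
  fin_cases i <;> simp <;> fun_prop

theorem c_e1 (s : ℝ) : Continuous (e1 s) := by
  refine (PiLp.continuous_toLp 2 _).comp (continuous_pi fun i => ?_)
  fin_cases i <;> simp <;> fun_prop

theorem c_e2 (s : ℝ) : Continuous (e2 s) := by
  refine (PiLp.continuous_toLp 2 _).comp (continuous_pi fun i => ?_)
  fin_cases i <;> simp <;> fun_prop

/-- The traceless part in the conformal frame. -/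
def zz (Q : V → V → V → ℝ) (s : ℝ) (w : ℂ) : ℂ :=
  (Q (pt s w) (e1 s w) (e1 s w) - Q (pt s w) (e2 s w) (e2 s w) : ℝ) +
    (2 * Q (pt s w) (e1 s w) (e2 s w) : ℝ) * Complex.I

/-- The change of frame on the equator. -/
theorem eqt (w : ℂ) (hw : w.re ^ 2 + w.im ^ 2 = 1) :
    pt 1 w = pt (-1) (starRingEnd ℂ w) ∧
    e1 1 w = -((w.re ^ 2 - w.im ^ 2) • e1 (-1) (starRingEnd ℂ w) -
      (2 * w.re * w.im) • e2 (-1) (starRingEnd ℂ w)) ∧
    e2 1 w = -((2 * w.re * w.im) • e1 (-1) (starRingEnd ℂ w) +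
      (w.re ^ 2 - w.im ^ 2) • e2 (-1) (starRingEnd ℂ w)) := by
  refine ⟨?_, ?_, ?_⟩ <;> ext i <;> fin_cases i <;>
    simp only [pt, e1, e2, PiLp.add_apply, PiLp.sub_apply, PiLp.neg_apply, PiLp.smul_apply,
      smul_eq_mul, Matrix.cons_val_zero, Matrix.cons_val_one, Matrix.cons_val, Fin.zero_eta,
      Fin.mk_one, Fin.reduceFinMk, Complex.conj_re, Complex.conj_im]
  · ring
  · ring
  · rw [hw, neg_sq, hw]
    ring
  all_goals grind

theorem umbilic (Q : V → V → V → ℝ)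
    (hc : ContinuousOn (fun z : V × V × V => Q z.1 z.2.1 z.2.2)
      {z | ‖z.1‖ = 1 ∧ ⟪z.1, z.2.1⟫ = 0 ∧ ⟪z.1, z.2.2⟫ = 0})
    (hl : ∀ v, ‖v‖ = 1 → ∃ L : V →L[ℝ] V, ∀ a b, ⟪v, a⟫ = 0 → ⟪v, b⟫ = 0 → Q v a b = ⟪L a, b⟫)
    (hs : ∀ v a b, ‖v‖ = 1 → ⟪v, a⟫ = 0 → ⟪v, b⟫ = 0 → Q v a b = Q v b a) :
    ∃ v, ‖v‖ = 1 ∧ ∃ β : ℝ, ∀ a b, ⟪v, a⟫ = 0 → ⟪v, b⟫ = 0 → Q v a b = β * ⟪a, b⟫ := by
  by_contra hn
  have z0 : ∀ s, s ^ 2 = 1 → ∀ w, zz Q s w ≠ 0 := fun s h1 w h => by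
    have p := pt_norm h1 w
    have p1 := pt_e1 h1 w
    have p2 := pt_e2 h1 w
    obtain ⟨L, hL⟩ := hl _ p
    have h2 := congrArg Complex.re h
    have h3 := congrArg Complex.im h
    simp only [zz, Complex.add_re, Complex.ofReal_re, Complex.mul_re, Complex.I_re, mul_zero,
      Complex.ofReal_im, Complex.I_im, mul_one, sub_self, add_zero, Complex.zero_re,
      Complex.add_im, Complex.mul_im, zero_add, Complex.zero_im] at h2 h3
    have h4 := hs _ _ _ p p1 p2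
    rw [hL _ _ p1 p1, hL _ _ p2 p2] at h2
    rw [hL _ _ p1 p2] at h3 h4
    rw [hL _ _ p2 p1] at h4
    obtain ⟨q1, q2, q3⟩ := e11 h1 w
    refine hn ⟨_, p, ⟪L (e1 s w), e1 s w⟫ / (1 + w.re ^ 2 + w.im ^ 2) ^ 2, fun a b ha hb => ?_⟩
    rw [hL a b ha hb, span h1 w a ha, span h1 w b hb]
    generalize ⟪e1 s w, a⟫ / _ = a1, ⟪e2 s w, a⟫ / _ = a2, ⟪e1 s w, b⟫ / _ = b1,
      ⟪e2 s w, b⟫ / _ = b2
    have q4 : ⟪e2 s w, e1 s w⟫ = 0 := by rw [real_inner_comm, q3]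
    have h5 : ⟪L (e1 s w), e2 s w⟫ = 0 := by linarith
    have h6 : ⟪L (e2 s w), e2 s w⟫ = ⟪L (e1 s w), e1 s w⟫ := by linarith
    simp only [map_add, map_smul, inner_add_left, inner_add_right, real_inner_smul_left,
      real_inner_smul_right, q1, q2, q3, q4, ← h4, h5, h6]
    have := den w
    field_simp
    ring
  have zc : ∀ s, s ^ 2 = 1 → Continuous (zz Q s) := fun s h1 => by
    have k : ∀ f g : ℂ → V, Continuous f → Continuous g → (∀ w, ⟪pt s w, f w⟫ = 0) →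
        (∀ w, ⟪pt s w, g w⟫ = 0) → Continuous fun w => Q (pt s w) (f w) (g w) :=
      fun f g hf hg h2 h3 => hc.comp_continuous ((c_pt s).prodMk (hf.prodMk hg))
        fun w => ⟨pt_norm h1 w, h2 w, h3 w⟩
    have k1 := k _ _ (c_e1 s) (c_e1 s) (pt_e1 h1) (pt_e1 h1)
    have k2 := k _ _ (c_e2 s) (c_e2 s) (pt_e2 h1) (pt_e2 h1)
    have k3 := k _ _ (c_e1 s) (c_e2 s) (pt_e1 h1) (pt_e2 h1)
    exact (Complex.continuous_ofReal.comp (k1.sub k2)).add
      ((Complex.continuous_ofReal.comp (continuous_const.mul k3)).mul continuous_const)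
  have m1 : (-1 : ℝ) ^ 2 = 1 := by norm_num
  have ch : ∀ w : ℂ, w.re ^ 2 + w.im ^ 2 = 1 →
      zz Q 1 w = w ^ 4 * zz Q (-1) (starRingEnd ℂ w) := fun w hw => by
    obtain ⟨r0, r1, r2⟩ := eqt w hw
    have p := pt_norm m1 (starRingEnd ℂ w)
    have p1 := pt_e1 m1 (starRingEnd ℂ w)
    have p2 := pt_e2 m1 (starRingEnd ℂ w)
    have s1 := pt_e1 (one_pow 2) w
    have s2 := pt_e2 (one_pow 2) w
    obtain ⟨L, hL⟩ := hl _ p
    have h4 := hs _ _ _ p p1 p2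
    rw [hL _ _ p1 p2, hL _ _ p2 p1] at h4
    rw [r0] at s1 s2
    rw [zz, zz, r0, hL _ _ s1 s1, hL _ _ s2 s2, hL _ _ s1 s2, hL _ _ p1 p1, hL _ _ p2 p2,
      hL _ _ p1 p2, r1, r2]
    simp only [map_neg, map_add, map_sub, map_smul, inner_add_left, inner_add_right,
      inner_sub_left, inner_sub_right, inner_neg_left, inner_neg_right, real_inner_smul_left,
      real_inner_smul_right, ← h4]
    generalize ⟪L (e1 (-1) (starRingEnd ℂ w)), e1 (-1) (starRingEnd ℂ w)⟫ = a11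
    generalize ⟪L (e1 (-1) (starRingEnd ℂ w)), e2 (-1) (starRingEnd ℂ w)⟫ = a12
    generalize ⟪L (e2 (-1) (starRingEnd ℂ w)), e2 (-1) (starRingEnd ℂ w)⟫ = a22
    apply Complex.ext <;>
      simp only [pow_succ, pow_zero, one_mul, Complex.add_re, Complex.add_im, Complex.mul_re,
        Complex.mul_im, Complex.ofReal_re, Complex.ofReal_im, Complex.I_re, Complex.I_im] <;>
      ring
  obtain ⟨f, hf, ef⟩ := D3MO.log_vec _ (zc 1 (one_pow 2)) (z0 1 (one_pow 2))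
  obtain ⟨g, hg, eg⟩ := D3MO.log_vec _ (zc _ m1) (z0 _ m1)
  refine D3MO.noLog (fun t => (f (Complex.exp (t * Complex.I)) -
    g (starRingEnd ℂ (Complex.exp (t * Complex.I))) + Real.pi * Complex.I) / 4) (by fun_prop)
    (by
      push_cast
      rw [Complex.exp_two_pi_mul_I]
      simp) fun t l hl h => ?_
  have h4 := congrArg (· ^ 4) h
  simp only [← Complex.exp_nat_mul] at h4
  rw [Nat.cast_ofNat, mul_div_cancel₀ _ (by norm_num), Complex.exp_add,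
    Complex.exp_sub, ef, eg,
    Complex.exp_pi_mul_I, ch _ (by
      rw [Complex.exp_ofReal_mul_I_re, Complex.exp_ofReal_mul_I_im, Real.cos_sq_add_sin_sq]),
    mul_div_assoc, div_self (z0 _ m1 _)] at h4
  have h5 : ((l : ℂ) ^ 4 + 1) * Complex.exp (t * Complex.I) ^ 4 = 0 := by
    linear_combination -h4
  rcases mul_eq_zero.1 h5 with h6 | h6
  · have h7 : l ^ 4 + 1 = 0 := by exact_mod_cast h6
    exact absurd h7 (by positivity)
  · exact pow_ne_zero 4 (Complex.exp_ne_zero _) h6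

end

end Pool.Agent.MP_3ee8cb_gt.D3HB
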